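import Pool.Agent.Lib.MP_fa46d7_gt.Objects
import Pool.Agent.Lib.MP_fa46d7_gt.ZFinal

set_option autoImplicit false

open scoped ENNReal NNReal ContDiff Manifold
open MeasureTheory Bundle SimpVol

/-- Simplicial volume versus ball volumes below half the systole (positive answer to Q1).

For every dimension `n + 1 ≥ 1` there is a constant `C > 0` such that for every closed connected
Riemannian manifold `M` of dimension `n + 1`, every fundamental cycle `z` of `M` (so `M` is
oriented by `z`, and `simplicialNorm z` is its simplicial volume) and every radius `r > 0` with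
`2 r ≤ sys M`, the volume of `M` is finite and the simplicial volume of `M` is at most
`C r^{-(n+1)} Vol M (log⁺ (C r^{-(n+1)} V_r(M)))^{n+1}`, where `V_r(M)` is the supremum of the
volumes of the balls of radius `r`. -/
theorem Pool.Agent.Results.MP_fa46d7_gt.BallVolumeBound.result (n : ℕ) :
    ∃ C : ℝ, 0 < C ∧ ∀ (M : Type) [MetricSpace M] [MeasurableSpace M] [BorelSpace M],
      IsClosedRiemannian (EuclideanSpace ℝ (Fin (n + 1))) M →
      ∀ z : SChain ℤ M (n + 1), IsFundamentalCycle z →
      ∀ r : ℝ, 0 < r → ENNReal.ofReal (2 * r) ≤ systole M →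
        vol (n + 1) (Set.univ : Set M) < ⊤ ∧
        simplicialNorm z ≤ C * (vol (n + 1) (Set.univ : Set M)).toReal / r ^ (n + 1) *
          (max 0 (Real.log (C * (volSup (n + 1) M r).toReal / r ^ (n + 1)))) ^ (n + 1) := by
  obtain ⟨C, hC, h⟩ := riem_main n
  refine ⟨C, hC, ?_⟩
  intro M _ _ _ hM z hz r hr hsys
  obtain ⟨_, _, _, _, _, _, _⟩ := hM
  obtain ⟨h1, h2⟩ := h M z hz r hr hsys
  refine ⟨h1, ?_⟩
  have e : ∀ V : ℝ, C * r ^ (-((n + 1 : ℕ) : ℤ)) * V = C * V / r ^ (n + 1) := by
    intro V
    rw [zpow_neg, zpow_natCast, div_eq_mul_inv]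
    ring
  rw [e, e] at h2
  exact h2
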